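import Pool.Agent.H18.HIT.Targets

/-!
# Zariski dense orbits: row AVO, prime avoidance
-/

set_option autoImplicit false

open MvPolynomial
open Pool.Agent.H12.ZD (pmap v O Res DenseOrbit NoInv)
open Pool.Agent.H18.HIT

namespace Pool.Agent.H99.HIT

theorem pf_AVO : T_AVO := by
  classical
  intro N k _ I hI h
  obtain ⟨S, hS, hS0⟩ := Submodule.exists_mem_ne_zero_of_ne_bot hI
  set F : Finset (Po N k) := (UniqueFactorizationMonoid.factors S).toFinset with hF
  have hirr : ∀ W ∈ F, Irreducible W := by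
    intro W hW
    exact UniqueFactorizationMonoid.irreducible_of_factor W
      (Multiset.mem_toFinset.mp hW)
  have hnot : ¬ (I : Set (Po N k)) ⊆ ⋃ W ∈ (F : Set (Po N k)), (Ideal.span {W} : Ideal (Po N k)) := by
    intro hsub
    have h2 := (Ideal.subset_union_prime (s := F) (f := fun W => Ideal.span {W}) 0 0
      (fun W hW _ _ => (Ideal.span_singleton_prime (hirr W hW).ne_zero).mpr (hirr W hW).prime)).mp
      hsub
    obtain ⟨W, hW, hle⟩ := h2
    obtain ⟨c, hc, hcW⟩ := h W (hirr W hW)
    exact hcW (Ideal.mem_span_singleton.mp (hle hc))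
  obtain ⟨S', hS', hn⟩ := Set.not_subset.mp hnot
  have hn' : ∀ W ∈ F, ¬ W ∣ S' := by
    intro W hW hd
    apply hn
    exact Set.mem_iUnion₂.mpr ⟨W, hW, Ideal.mem_span_singleton.mpr hd⟩
  by_cases hu : IsUnit S
  · refine ⟨S, hS, S, hS, hS0, hS0, ?_⟩
    exact hu.isRelPrime_left
  · have hFne : F.Nonempty := by
      by_contra hne
      rw [Finset.not_nonempty_iff_eq_empty, hF, Multiset.toFinset_eq_empty] at hne
      have := UniqueFactorizationMonoid.factors_prod hS0
      rw [hne, Multiset.prod_zero] at this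
      exact hu (associated_one_iff_isUnit.mp this.symm)
    obtain ⟨W0, hW0⟩ := hFne
    refine ⟨S, hS, S', hS', hS0, ?_, ?_⟩
    · rintro rfl
      exact hn' W0 hW0 (dvd_zero _)
    · intro d hd hd'
      by_contra hdu
      have hd0 : d ≠ 0 := fun h0 => hS0 (by rwa [h0, zero_dvd_iff] at hd)
      obtain ⟨W, hW, hWd⟩ := WfDvdMonoid.exists_irreducible_factor hdu hd0
      obtain ⟨q, hq, hqa⟩ := UniqueFactorizationMonoid.exists_mem_factors_of_dvd hS0 hW
        (hWd.trans hd)
      have : q ∣ S' := (hqa.symm.dvd).trans (hWd.trans hd')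
      exact hn' q (Multiset.mem_toFinset.mpr hq) this

end Pool.Agent.H99.HIT
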