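import Pool.Agent.H18.HIT.Targets

/-!
# Zariski dense orbits: row RTD, polynomials of bounded total degree
-/

set_option autoImplicit false

open MvPolynomial
open Pool.Agent.H12.ZD (pmap v O Res DenseOrbit NoInv)
open Pool.Agent.H18.HIT

namespace Pool.Agent.H99.HIT

theorem rtd_hockey (n d : ℕ) :
    ∑ a ∈ Finset.range (d + 1), (n + (d - a)).choose n = (n + 1 + d).choose (n + 1) := by
  induction d with
  | zero => simp
  | succ d ih =>
    rw [Finset.sum_range_succ']
    have h1 : ∀ a ∈ Finset.range (d + 1), (n + (d + 1 - (a + 1))).choose n =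
        (n + (d - a)).choose n := by
      intro a _
      rw [Nat.add_sub_add_right]
    rw [Finset.sum_congr rfl h1, ih, Nat.sub_zero, Nat.add_comm ((n + 1 + d).choose (n + 1))]
    have h2 : n + 1 + (d + 1) = (n + 1 + d) + 1 := by ring
    have h3 : n + (d + 1) = n + 1 + d := by ring
    rw [h2, h3, Nat.choose_succ_succ' (n + 1 + d) n]

/-- counting function -/
def cnt (n D d : ℕ) : ℕ := ∑ m : Fin n → Fin (D + 1), if ∑ i, (m i : ℕ) ≤ d then 1 else 0

theorem rtd_split (n D : ℕ) (i : Fin (n + 1)) (f : ℕ → ℕ → ℕ) :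
    ∑ m : Fin (n + 1) → Fin (D + 1), f (m i) (∑ j, (m j : ℕ)) =
      ∑ a : Fin (D + 1), ∑ m : Fin n → Fin (D + 1), f a (a + ∑ j, (m j : ℕ)) := by
  rw [← Fintype.sum_prod_type']
  rw [← Equiv.sum_comp (Fin.insertNthEquiv (fun _ => Fin (D + 1)) i)]
  refine Finset.sum_congr rfl fun x _ => ?_
  rw [Fin.sum_univ_succAbove _ i]
  simp

theorem rtd_if (D d : ℕ) (hd : d ≤ D) (g : ℕ → ℕ) :
    ∑ a : Fin (D + 1), (if (a : ℕ) ≤ d then g (d - a) else 0) =
      ∑ a ∈ Finset.range (d + 1), g (d - a) := by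
  rw [Fin.sum_univ_eq_sum_range (fun a => if a ≤ d then g (d - a) else 0) (D + 1)]
  rw [← Finset.sum_filter]
  refine Finset.sum_congr ?_ fun _ _ => rfl
  ext a
  simp only [Finset.mem_filter, Finset.mem_range]
  omega

theorem rtd_inner (n D d a : ℕ) :
    ∑ m : Fin n → Fin (D + 1), (if a + ∑ i, (m i : ℕ) ≤ d then 1 else 0) =
      if a ≤ d then cnt n D (d - a) else 0 := by
  split_ifs with h
  · refine Finset.sum_congr rfl fun m _ => ?_
    have : (a + ∑ i, (m i : ℕ) ≤ d) ↔ (∑ i, (m i : ℕ) ≤ d - a) := by omega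
    simp only [this]
  · refine Finset.sum_eq_zero fun m _ => ?_
    rw [if_neg]
    omega

theorem rtd_cnt (n D : ℕ) : ∀ d ≤ D, cnt n D d = (n + d).choose n := by
  induction n with
  | zero =>
    intro d hd
    simp [cnt]
  | succ n ih =>
    intro d hd
    have h1 := rtd_split n D 0 (fun _ s => if s ≤ d then 1 else 0)
    rw [cnt, h1]
    simp only [rtd_inner]
    have h2 := rtd_if D d hd (fun e => cnt n D e)
    rw [h2, ← rtd_hockey]
    refine Finset.sum_congr rfl fun a ha => ?_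
    exact ih _ ((Nat.sub_le _ _).trans hd)

/-- monomials of bounded degree -/
noncomputable def rtdEquiv (N t : ℕ) :
    {n : Fin N →₀ ℕ | (n.sum fun _ e => e) ≤ t} ≃
      {m : Fin N → Fin (t + 1) // ∑ i, (m i : ℕ) ≤ t} where
  toFun n := ⟨fun i => ⟨n.1 i, by
      have h : (n.1.sum fun _ e => e) ≤ t := n.2
      rw [Finsupp.sum_fintype _ _ (fun _ => rfl)] at h
      have h1 : n.1 i ≤ ∑ j, n.1 j :=
        Finset.single_le_sum (fun _ _ => Nat.zero_le _) (Finset.mem_univ i)
      omega⟩, by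
      have h : (n.1.sum fun _ e => e) ≤ t := n.2
      rw [Finsupp.sum_fintype _ _ (fun _ => rfl)] at h
      exact h⟩
  invFun m := ⟨Finsupp.equivFunOnFinite.symm (fun i => (m.1 i : ℕ)), by
      show ((Finsupp.equivFunOnFinite.symm (fun i => (m.1 i : ℕ))).sum fun _ e => e) ≤ t
      rw [Finsupp.sum_fintype _ _ (fun _ => rfl)]
      simpa using m.2⟩
  left_inv n := by
    ext i
    simp
  right_inv m := by
    ext i
    simp

theorem pf_RTD : T_RTD := by
  intro N k _ t
  refine ⟨inferInstance, ?_⟩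
  have h1 : Module.finrank k (restrictTotalDegree (Fin N) k t) =
      Nat.card {n : Fin N →₀ ℕ | (n.sum fun _ e => e) ≤ t} :=
    Module.finrank_eq_nat_card_basis
      (basisRestrictSupport k {n : Fin N →₀ ℕ | (n.sum fun _ e => e) ≤ t})
  rw [h1, Nat.card_congr (rtdEquiv N t), Nat.card_eq_fintype_card, Fintype.card_subtype,
    Finset.card_filter]
  have h2 := rtd_cnt N t t le_rfl
  rw [add_comm t N]
  exact h2

end Pool.Agent.H99.HIT
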