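import Pool.Agent.H18.HIT.Targets

/-!
# Zariski dense orbits: row ETL, an etale map is surjective on jets
-/

set_option autoImplicit false

open MvPolynomial
open Pool.Agent.H12.ZD (pmap v O Res DenseOrbit NoInv)
open Pool.Agent.H18.HIT

namespace Pool.Agent.H99.HIT

variable {N : ℕ} {k : Type} [Field k]

theorem etl_u (x : Fin N → k) (i : Fin N) : (X i - C (x i) : Po N k) ∈ mx x :=
  Ideal.subset_span ⟨i, rfl⟩

theorem etl_tay (x : Fin N → k) (q : Po N k) :
    q - C (eval x q) - ∑ j, C (eval x (pderiv j q)) * (X j - C (x j)) ∈ mx x ^ 2 := by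
  classical
  induction q using MvPolynomial.induction_on with
  | C a => simp
  | add a b ha hb =>
    have e : a + b - C (eval x (a + b)) -
        ∑ j, C (eval x (pderiv j (a + b))) * (X j - C (x j)) =
        (a - C (eval x a) - ∑ j, C (eval x (pderiv j a)) * (X j - C (x j))) +
        (b - C (eval x b) - ∑ j, C (eval x (pderiv j b)) * (X j - C (x j))) := by
      simp only [map_add, add_mul, Finset.sum_add_distrib]
      ring
    rw [e]
    exact Ideal.add_mem _ ha hb
  | mul_X a i ha =>
    have h1 : ∑ j, C (eval x (pderiv j (a * X i))) * (X j - C (x j)) =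
        C (x i) * ∑ j, C (eval x (pderiv j a)) * (X j - C (x j)) +
          C (eval x a) * (X i - C (x i)) := by
      have h2 : ∀ j, C (eval x (pderiv j (a * X i))) * (X j - C (x j)) =
          C (x i) * (C (eval x (pderiv j a)) * (X j - C (x j))) +
            (if j = i then C (eval x a) * (X i - C (x i)) else 0) := by
        intro j
        rw [pderiv_mul, map_add, map_mul, map_mul, eval_X]
        by_cases hj : j = i
        · subst hj
          rw [pderiv_X_self, map_one, if_pos rfl]
          simp only [mul_one, C_add, C_mul]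
          ring
        · rw [pderiv_X_of_ne (Ne.symm hj), map_zero, if_neg hj]
          simp only [mul_zero, add_zero, C_mul]
          ring
      rw [Finset.sum_congr rfl (fun j _ => h2 j), Finset.sum_add_distrib, ← Finset.mul_sum]
      simp
    have e : a * X i - C (eval x (a * X i)) -
        ∑ j, C (eval x (pderiv j (a * X i))) * (X j - C (x j)) =
        C (x i) * (a - C (eval x a) - ∑ j, C (eval x (pderiv j a)) * (X j - C (x j))) +
          (a - C (eval x a)) * (X i - C (x i)) := by
      rw [h1, map_mul, eval_X, C_mul]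
      ring
    rw [e]
    refine Ideal.add_mem _ (Ideal.mul_mem_left _ _ ha) ?_
    rw [pow_two]
    exact Ideal.mul_mem_mul (sub_C_eval_mem_mx x a) (etl_u x i)

theorem etl_gen (G : Tup N k) (x : Fin N → k) (hJ : eval x (jac G) ≠ 0) (j : Fin N) :
    ∃ c ∈ mx (pmap G x), (X j - C (x j)) - aeval G c ∈ mx x ^ 2 := by
  classical
  set J : Matrix (Fin N) (Fin N) k := Matrix.of fun i j => eval x (pderiv j (G i)) with hJd
  have hdet : J.det = eval x (jac G) := by
    have h := RingHom.map_det (eval x : Po N k →+* k)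
      (Matrix.of fun i j => pderiv j (G i) : Matrix (Fin N) (Fin N) (Po N k))
    rw [jac, h]
    rfl
  have hu : IsUnit J.det := by rw [hdet]; exact hJ.isUnit
  have hinv : J⁻¹ * J = 1 := Matrix.nonsing_inv_mul J hu
  refine ⟨∑ i, C (J⁻¹ j i) * (X i - C (pmap G x i)), ?_, ?_⟩
  · exact Ideal.sum_mem _ (fun i _ => Ideal.mul_mem_left _ _ (etl_u _ i))
  · have hp : ∀ i, pmap G x i = eval x (G i) := fun i => rfl
    have e1 : aeval G (∑ i, C (J⁻¹ j i) * (X i - C (pmap G x i)) : Po N k) =
        ∑ i, C (J⁻¹ j i) * (G i - C (eval x (G i))) := by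
      rw [map_sum]
      refine Finset.sum_congr rfl fun i _ => ?_
      rw [map_mul, map_sub, aeval_X, aeval_C, aeval_C, hp i]
      rfl
    have e2 : ∑ i, C (J⁻¹ j i) * ∑ l, C (eval x (pderiv l (G i))) * (X l - C (x l)) =
        (X j - C (x j) : Po N k) := by
      have h3 : ∀ i, C (J⁻¹ j i) * ∑ l, C (eval x (pderiv l (G i))) * (X l - C (x l)) =
          ∑ l, C (J⁻¹ j i * J i l) * (X l - C (x l) : Po N k) := by
        intro i
        rw [Finset.mul_sum]
        refine Finset.sum_congr rfl fun l _ => ?_
        rw [C_mul, mul_assoc]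
        rfl
      rw [Finset.sum_congr rfl (fun i _ => h3 i), Finset.sum_comm]
      have h4 : ∀ l, ∑ i, C (J⁻¹ j i * J i l) * (X l - C (x l) : Po N k) =
          if j = l then (X l - C (x l) : Po N k) else 0 := by
        intro l
        rw [← Finset.sum_mul, ← map_sum]
        have h5 : ∑ i, J⁻¹ j i * J i l = (J⁻¹ * J) j l := rfl
        rw [h5, hinv, Matrix.one_apply]
        split_ifs with h
        · rw [map_one, one_mul]
        · rw [map_zero, zero_mul]
      rw [Finset.sum_congr rfl (fun l _ => h4 l)]
      simp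
    have e3 : (X j - C (x j)) - aeval G (∑ i, C (J⁻¹ j i) * (X i - C (pmap G x i)) : Po N k) =
        -∑ i, C (J⁻¹ j i) * (G i - C (eval x (G i)) -
          ∑ l, C (eval x (pderiv l (G i))) * (X l - C (x l))) := by
      have e4 : ∑ i, C (J⁻¹ j i) * (G i - C (eval x (G i)) -
          ∑ l, C (eval x (pderiv l (G i))) * (X l - C (x l))) =
          ∑ i, C (J⁻¹ j i) * (G i - C (eval x (G i))) -
          ∑ i, C (J⁻¹ j i) * ∑ l, C (eval x (pderiv l (G i))) * (X l - C (x l)) := by
        rw [← Finset.sum_sub_distrib]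
        exact Finset.sum_congr rfl (fun i _ => mul_sub _ _ _)
      rw [e1, e4, e2]
      ring
    rw [e3]
    apply Submodule.neg_mem
    exact Ideal.sum_mem _ (fun i _ => Ideal.mul_mem_left _ _ (etl_tay x (G i)))

theorem etl_one (G : Tup N k) (x : Fin N → k) (hJ : eval x (jac G) ≠ 0) (q : Po N k)
    (hq : q ∈ mx x) : ∃ c ∈ mx (pmap G x), q - aeval G c ∈ mx x ^ 2 := by
  choose c hc hc2 using etl_gen G x hJ
  refine ⟨∑ j, C (eval x (pderiv j q)) * c j, ?_, ?_⟩
  · exact Ideal.sum_mem _ (fun j _ => Ideal.mul_mem_left _ _ (hc j))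
  · have h0 : eval x q = 0 := eval_of_mem_mx hq
    have e1 : aeval G (∑ j, C (eval x (pderiv j q)) * c j : Po N k) =
        ∑ j, C (eval x (pderiv j q)) * aeval G (c j) := by
      rw [map_sum]
      refine Finset.sum_congr rfl fun j _ => ?_
      rw [map_mul, aeval_C]
      rfl
    have e2 : q - aeval G (∑ j, C (eval x (pderiv j q)) * c j : Po N k) =
        (q - C (eval x q) - ∑ j, C (eval x (pderiv j q)) * (X j - C (x j))) +
        ∑ j, C (eval x (pderiv j q)) * ((X j - C (x j)) - aeval G (c j)) := by
      have e3 : ∑ j, C (eval x (pderiv j q)) * ((X j - C (x j)) - aeval G (c j)) =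
          ∑ j, C (eval x (pderiv j q)) * (X j - C (x j)) -
          ∑ j, C (eval x (pderiv j q)) * aeval G (c j) := by
        rw [← Finset.sum_sub_distrib]
        exact Finset.sum_congr rfl (fun j _ => by rw [mul_sub])
      rw [e1, e3, h0, map_zero]
      ring
    rw [e2]
    exact Ideal.add_mem _ (etl_tay x q)
      (Ideal.sum_mem _ (fun j _ => Ideal.mul_mem_left _ _ (hc2 j)))

theorem etl_pow (G : Tup N k) (x : Fin N → k) (hJ : eval x (jac G) ≠ 0) (l : ℕ) :
    ∀ q ∈ mx x ^ l, ∃ c ∈ mx (pmap G x) ^ l, q - aeval G c ∈ mx x ^ (l + 1) := by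
  induction l with
  | zero =>
    intro q _
    refine ⟨C (eval x q), by simp, ?_⟩
    have e : aeval G (C (eval x q) : Po N k) = C (eval x q) := aeval_C _ _
    rw [e, zero_add, pow_one]
    exact sub_C_eval_mem_mx x q
  | succ l ih =>
    intro q hq
    rw [pow_succ'] at hq
    refine Submodule.mul_induction_on hq ?_ ?_
    · intro a ha b hb
      obtain ⟨ca, hca, ha2⟩ := etl_one G x hJ a ha
      obtain ⟨cb, hcb, hb2⟩ := ih b hb
      refine ⟨ca * cb, ?_, ?_⟩
      · rw [pow_succ']
        exact Ideal.mul_mem_mul hca hcb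
      · have e : a * b - aeval G (ca * cb) =
            (a - aeval G ca) * b + aeval G ca * (b - aeval G cb) := by
          rw [map_mul]
          ring
        rw [e]
        have hga : aeval G ca ∈ mx x := by
          have := aeval_mem_mx_pow (l := 1) (by rw [pow_one]; exact hca : ca ∈ mx (pmap G x) ^ 1)
          rwa [pow_one] at this
        refine Ideal.add_mem _ ?_ ?_
        · have h1 := Ideal.mul_mem_mul ha2 hb
          rw [← pow_add] at h1
          have : l + 1 + 1 = 2 + l := by ring
          rw [this]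
          exact h1
        · rw [pow_succ' _ (l + 1)]
          exact Ideal.mul_mem_mul hga hb2
    · rintro a b ⟨ca, hca, ha2⟩ ⟨cb, hcb, hb2⟩
      refine ⟨ca + cb, Ideal.add_mem _ hca hcb, ?_⟩
      have e : a + b - aeval G (ca + cb) = (a - aeval G ca) + (b - aeval G cb) := by
        rw [map_add]
        ring
      rw [e]
      exact Ideal.add_mem _ ha2 hb2

theorem pf_ETL : T_ETL := by
  intro N k _ G x hJ l
  induction l with
  | zero =>
    intro q
    exact ⟨0, by simp⟩
  | succ l ih =>
    intro q
    obtain ⟨c, hc⟩ := ih q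
    obtain ⟨c', _, hc'⟩ := etl_pow G x hJ l _ hc
    refine ⟨c + c', ?_⟩
    have e : q - aeval G (c + c') = q - aeval G c - aeval G c' := by
      rw [map_add]
      ring
    rw [e]
    exact hc'

end Pool.Agent.H99.HIT
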