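import Pool.Agent.H18.HIT.Targets

/-!
# Zariski dense orbits: row SPT, separation of points
-/

set_option autoImplicit false

open MvPolynomial
open Pool.Agent.H12.ZD (pmap v O Res DenseOrbit NoInv)
open Pool.Agent.H18.HIT

namespace Pool.Agent.H99.HIT

theorem pf_SPT : T_SPT := by
  classical
  intro N k _ _ S
  -- a vector outside the zero sets of the linear forms x - y
  set P : MvPolynomial (Fin N) k :=
    ∏ q ∈ (S ×ˢ S).filter (fun q => q.1 ≠ q.2), ∑ i, C (q.1 i - q.2 i) * X i with hP
  have hP0 : P ≠ 0 := by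
    rw [hP, Finset.prod_ne_zero_iff]
    intro q hq h0
    have hne := (Finset.mem_filter.mp hq).2
    apply hne
    funext i
    have h1 := congrArg (eval (Pi.single i (1 : k))) h0
    rw [map_sum, map_zero] at h1
    have h2 : ∀ j, eval (Pi.single i (1 : k)) (C (q.1 j - q.2 j) * X j : MvPolynomial (Fin N) k) =
        if j = i then q.1 j - q.2 j else 0 := by
      intro j
      by_cases hj : j = i
      · subst hj; simp
      · simp [hj]
    rw [Finset.sum_congr rfl (fun j _ => h2 j)] at h1
    simp at h1
    exact sub_eq_zero.mp h1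
  obtain ⟨a, ha⟩ : ∃ a : Fin N → k, eval a P ≠ 0 := by
    by_contra hcon
    push Not at hcon
    apply hP0
    apply MvPolynomial.funext
    intro a
    rw [hcon a, map_zero]
  refine ⟨∑ i, C (a i) * X i, fun x hx y hy hxy => ?_⟩
  by_contra hne
  apply ha
  rw [hP, map_prod]
  apply Finset.prod_eq_zero (i := (x, y))
  · exact Finset.mem_filter.mpr ⟨Finset.mem_product.mpr ⟨hx, hy⟩, hne⟩
  · have h3 : ∑ i, a i * x i = ∑ i, a i * y i := by
      simpa [map_sum] using hxy
    simp only [map_sum, map_mul, eval_C, eval_X]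
    have h4 : ∑ i, (x i - y i) * a i = ∑ i, a i * x i - ∑ i, a i * y i := by
      rw [← Finset.sum_sub_distrib]
      exact Finset.sum_congr rfl (fun i _ => by ring)
    rw [h4, h3, sub_self]

end Pool.Agent.H99.HIT
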